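import Mathlib
import Pool.Agent.Lib.MP_4838e0_gt.Assembly

/-!
# Strict monotonicity of the conformal Steklov eigenvalues (MP_4838e0_gt, Q1)

For every compact connected smooth manifold `Ω` of dimension `d + 1 ≥ 2` with nonempty boundary,
every conformal class `[g]` on `Ω` and every `k`, the conformal Steklov eigenvalues satisfy
`σ̄_k(Ω, [g]) < σ̄_{k+1}(Ω, [g])`.

All definitions used by the statement are in this file.  Smooth manifolds with boundary and smooth
Riemannian metrics are those of Mathlib (`IsManifold (𝓡∂ (d + 1)) ∞ Ω` and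
`ContMDiffRiemannianMetric`).
-/

set_option autoImplicit false

universe u

open Set Filter Topology MeasureTheory Manifold ContDiff Bundle
open scoped ENNReal

noncomputable section

namespace Pool.Agent.Results.MP_4838e0_gt.StrictMonotonicity

/-! ## Abbreviations for Mathlib's model spaces

They only shorten the printed terms; the instances are Mathlib's. -/

/-- The model space of dimension `d + 1`. -/
abbrev EE (d : ℕ) : Type := EuclideanSpace ℝ (Fin (d + 1))

/-- The model half-space `{x : x₀ ≥ 0}` of dimension `d + 1`. -/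
abbrev HH (d : ℕ) : Type := EuclideanHalfSpace (d + 1)

instance instNormedAddCommGroupEE (d : ℕ) : NormedAddCommGroup (EE d) := inferInstance
instance instNormedSpaceEE (d : ℕ) : NormedSpace ℝ (EE d) := inferInstance
instance instMeasureSpaceEE (d : ℕ) : MeasureSpace (EE d) := inferInstance
instance instTopologicalSpaceHH (d : ℕ) : TopologicalSpace (HH d) := inferInstance

/-- Mathlib's model with corners `𝓡∂ (d + 1)`. -/
abbrev MB (d : ℕ) : ModelWithCorners ℝ (EE d) (HH d) := 𝓡∂ (d + 1)

variable {d : ℕ} {Ω : Type u} [TopologicalSpace Ω] [ChartedSpace (HH d) Ω]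

variable (d) in
/-- The tangent space of `Ω` at `x`. -/
abbrev Tan (x : Ω) : Type := TangentSpace (MB d) x

instance instTopologicalSpaceTan (x : Ω) : TopologicalSpace (TangentSpace (MB d) x) :=
  inferInstance
instance instAddCommGroupTan (x : Ω) : AddCommGroup (TangentSpace (MB d) x) := inferInstance
instance instModuleTan (x : Ω) : Module ℝ (TangentSpace (MB d) x) := inferInstance

/-! ## Riemannian metrics and charts -/

variable (d Ω) in
/-- Smooth Riemannian metrics on the manifold with boundary `Ω` of dimension `d + 1`. -/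
abbrev RMetric [IsManifold (MB d) ∞ Ω] : Type u :=
  ContMDiffRiemannianMetric (MB d) ∞ (EE d) (fun x : Ω => TangentSpace (MB d) x)

/-- The inner product `g_x(v, w)`, as a bilinear map. -/
def inn [IsManifold (MB d) ∞ Ω] (g : RMetric d Ω) (x : Ω) : Tan d x →L[ℝ] Tan d x →L[ℝ] ℝ :=
  g.inner x

/-- The inner product `g_x(v, w)`. -/
def ip [IsManifold (MB d) ∞ Ω] (g : RMetric d Ω) (x : Ω) (v w : Tan d x) : ℝ := inn g x v w

/-- The inverse of the chart at `x₀`, from coordinates to points of `Ω`. -/
def par (x₀ : Ω) : EE d → Ω := (extChartAt (MB d) x₀).symm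

/-- The image of the chart at `x₀`. -/
def tgt (x₀ : Ω) : Set (EE d) := (extChartAt (MB d) x₀).target

/-- The derivative of the inverse of the chart at `x₀`, at the point with coordinates `y`. -/
def dpar (x₀ : Ω) (y : EE d) : EE d →L[ℝ] Tan d (par x₀ y) :=
  mfderivWithin 𝓘(ℝ, EE d) (MB d) (par x₀) (range (MB d)) y

/-- The `i`-th coordinate vector field of the chart at `x₀`, at the point with coordinates `y`. -/
def coordVec (x₀ : Ω) (y : EE d) (i : Fin (d + 1)) : Tan d (par x₀ y) :=
  dpar x₀ y (EuclideanSpace.single i (1 : ℝ))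

/-- The Gram matrix `g_{ij}` of the metric in the chart at `x₀`, at the point with
coordinates `y`. -/
def gram [IsManifold (MB d) ∞ Ω] (g : RMetric d Ω) (x₀ : Ω) (y : EE d) :
    Matrix (Fin (d + 1)) (Fin (d + 1)) ℝ :=
  fun i j => ip g (par x₀ y) (coordVec x₀ y i) (coordVec x₀ y j)

/-- The boundary point `(0, y')` of the half-space. -/
def bdPoint (y' : EuclideanSpace ℝ (Fin d)) : EE d :=
  WithLp.toLp 2 (Fin.cons 0 y'.ofLp : Fin (d + 1) → ℝ)

/-! ## Riemannian measures -/

section Measures

variable [IsManifold (MB d) ∞ Ω] [MeasurableSpace Ω]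

/-- The Riemannian volume in the chart at `x₀`: the measure `√det(g_{ij}) dy` on the image of the
chart, carried to `Ω`. -/
def localVol (g : RMetric d Ω) (x₀ : Ω) : Measure Ω :=
  (((volume : Measure (EE d)).restrict (tgt x₀)).withDensity
    (fun y => ENNReal.ofReal (Real.sqrt (gram g x₀ y).det))).map (par x₀)

/-- The Riemannian volume of the boundary in the chart at `x₀`: the measure
`√det(g_{ij})_{i,j ≥ 1} dy'` on the part `{(0, y')}` of the image of the chart, carried to `Ω`. -/
def localBd (g : RMetric d Ω) (x₀ : Ω) : Measure Ω :=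
  (((volume : Measure (EuclideanSpace ℝ (Fin d))).restrict
      {y' | bdPoint y' ∈ tgt x₀}).withDensity
    (fun y' => ENNReal.ofReal
      (Real.sqrt ((gram g x₀ (bdPoint y')).submatrix Fin.succ Fin.succ).det))).map
      (fun y' => par x₀ (bdPoint y'))

/-- The Riemannian volume measure of `(Ω, g)`: the supremum of the chart measures.  (Each chart
measure is the restriction of this measure to the domain of the chart.) -/
def riemVol (g : RMetric d Ω) : Measure Ω := ⨆ x₀ : Ω, localVol g x₀

/-- The Riemannian volume measure of the boundary of `(Ω, g)`, as a measure on `Ω` concentrated on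
the boundary: the supremum of the chart measures. -/
def riemBd (g : RMetric d Ω) : Measure Ω := ⨆ x₀ : Ω, localBd g x₀

end Measures

/-! ## Energy and boundary mass -/

/-- The differential `df_x(w)`. -/
def dif (f : Ω → ℝ) (x : Ω) (w : Tan d x) : ℝ := mfderiv (MB d) 𝓘(ℝ, ℝ) f x w

/-- The Riemannian gradient of `f` at `x`: the tangent vector `v` such that
`g(v, w) = df(w)` for all `w`. -/
def grad [IsManifold (MB d) ∞ Ω] (g : RMetric d Ω) (f : Ω → ℝ) (x : Ω) : Tan d x :=
  Classical.epsilon fun v => ∀ w, ip g x v w = dif f x w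

section Steklov

variable [IsManifold (MB d) ∞ Ω] [MeasurableSpace Ω]

/-- Dirichlet energy `∫_Ω |∇f|² dv_g`. -/
def energy (g : RMetric d Ω) (f : Ω → ℝ) : ℝ≥0∞ :=
  ∫⁻ x, ENNReal.ofReal (ip g x (grad g f x) (grad g f x)) ∂(riemVol g)

/-- The squared `L²` norm on the boundary `∫_{∂Ω} f² ds_g`. -/
def bdMass (g : RMetric d Ω) (f : Ω → ℝ) : ℝ≥0∞ :=
  ∫⁻ x, ENNReal.ofReal (f x ^ 2) ∂(riemBd g)

/-! ## Steklov eigenvalues -/

omit [IsManifold (MB d) ∞ Ω] [MeasurableSpace Ω] in
variable (d) in
/-- Admissible spaces of test functions for the `k`-th Steklov eigenvalue: subspaces of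
dimension `k + 1` of `C^∞(Ω)`, whose nonzero elements do not vanish identically on the boundary. -/
def IsTestSpace (k : ℕ) (V : Submodule ℝ (Ω → ℝ)) : Prop :=
  (∀ f ∈ V, ContMDiff (MB d) 𝓘(ℝ, ℝ) ∞ f) ∧ Module.finrank ℝ V = k + 1 ∧
    ∀ f ∈ V, (∀ x ∈ (MB d).boundary Ω, f x = 0) → f = 0

/-- The `k`-th Steklov eigenvalue `σ_k(Ω, g)`, by the min-max principle. -/
def steklov (g : RMetric d Ω) (k : ℕ) : ℝ≥0∞ :=
  ⨅ (V : Submodule ℝ (Ω → ℝ)) (_ : IsTestSpace d k V), ⨆ (f : Ω → ℝ) (_ : f ∈ V) (_ : f ≠ 0),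
    energy g f / bdMass g f

/-- The normalised Steklov eigenvalue `σ_k |Ω|^{(1-d)/(d+1)} |∂Ω|`. -/
def steklovBar (g : RMetric d Ω) (k : ℕ) : ℝ≥0∞ :=
  steklov g k * (riemVol g univ) ^ ((1 - (d : ℝ)) / ((d : ℝ) + 1)) * riemBd g univ

omit [MeasurableSpace Ω] in
/-- `h` is conformal to `g`: `h = ρ² g` for a smooth positive function `ρ`. -/
def IsConformalTo (g h : RMetric d Ω) : Prop :=
  ∃ ρ : Ω → ℝ, ContMDiff (MB d) 𝓘(ℝ, ℝ) ∞ ρ ∧ (∀ x, 0 < ρ x) ∧
    ∀ x v w, ip h x v w = ρ x ^ 2 * ip g x v w

/-- The conformal Steklov eigenvalue `σ̄_k(Ω, [g])`: the supremum of `σ̄_k` over the conformal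
class of `g`. -/
def confSteklov (g : RMetric d Ω) (k : ℕ) : ℝ≥0∞ :=
  ⨆ (h : RMetric d Ω) (_ : IsConformalTo g h), steklovBar h k

end Steklov

/-! ## The theorem -/

/-- The definitions above agree with those of the library file `Defs.lean`. -/
lemma confSteklov_eq_lib [IsManifold (MB d) ∞ Ω] [MeasurableSpace Ω] (g : RMetric d Ω) (k : ℕ) :
    confSteklov g k = Pool.Agent.Steklov.confSteklov g k := rfl

/-- **Strict monotonicity of the conformal Steklov eigenvalues.** -/
theorem result {d : ℕ} (hd : 1 ≤ d) {Ω : Type u} [TopologicalSpace Ω]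
    [ChartedSpace (EuclideanHalfSpace (d + 1)) Ω] [IsManifold (𝓡∂ (d + 1)) ∞ Ω]
    [T2Space Ω] [CompactSpace Ω] [ConnectedSpace Ω] [MeasurableSpace Ω] [BorelSpace Ω]
    (hne : ((𝓡∂ (d + 1)).boundary Ω).Nonempty) (g : RMetric d Ω) (k : ℕ) :
    confSteklov g k < confSteklov g (k + 1) := by
  rw [confSteklov_eq_lib, confSteklov_eq_lib]
  exact Pool.Agent.Steklov.confSteklov_lt hd hne g k

end Pool.Agent.Results.MP_4838e0_gt.StrictMonotonicity
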